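import Pool.Agent.H18.HX.Targets

/-!
# Board hx_modules, row PVR: preimages for another representation of the same rational map
-/

set_option autoImplicit false

open MvPolynomial
open Pool.Agent.H12.ZD (pmap v O Res DenseOrbit NoInv)
open Pool.Agent.H18.HIT Pool.Agent.H18.HX

namespace Pool.Agent.H86.HX

section

variable {L : ℕ} {k : Type} [Field k]

theorem eval_scale {f : Po L k} {e : ℕ} (hf : f.IsHomogeneous e) (c : k) (x : Fin L → k) :
    eval (fun i => c * x i) f = c ^ e * eval x f := by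
  rw [eval_eq, eval_eq, Finset.mul_sum]
  refine Finset.sum_congr rfl fun d hd => ?_
  have hdeg : ∑ i ∈ d.support, d i = e := by
    by_contra h
    exact (mem_support_iff.1 hd) (hf.coeff_eq_zero h)
  have h1 : ∏ i ∈ d.support, (c * x i) ^ d i = c ^ e * ∏ i ∈ d.support, x i ^ d i := by
    rw [← hdeg, ← Finset.prod_pow_eq_pow_sum, ← Finset.prod_mul_distrib]
    exact Finset.prod_congr rfl fun i _ => mul_pow _ _ _
  rw [h1]
  ring

theorem mem_of_vars {I : Ideal (Po L k)} (hI : ∀ j, (X j : Po L k) ∈ I) {f : Po L k} {e : ℕ}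
    (hf : f.IsHomogeneous e) (he : 1 ≤ e) : f ∈ I := by
  rw [f.as_sum]
  refine I.sum_mem fun d hd => ?_
  have hdeg : ∑ i ∈ d.support, d i = e := by
    by_contra h
    exact (mem_support_iff.1 hd) (hf.coeff_eq_zero h)
  have hne : d.support.Nonempty := by
    by_contra h
    rw [Finset.not_nonempty_iff_eq_empty] at h
    rw [h, Finset.sum_empty] at hdeg
    omega
  obtain ⟨j, hj⟩ := hne
  have h1 : d = (d - Finsupp.single j 1) + Finsupp.single j 1 := by
    refine (tsub_add_cancel_of_le ?_).symm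
    rw [Finsupp.single_le_iff]
    exact Nat.one_le_iff_ne_zero.2 (Finsupp.mem_support_iff.1 hj)
  have h2 : monomial d (coeff d f) = monomial (d - Finsupp.single j 1) (coeff d f) * X j := by
    rw [X, monomial_mul, mul_one, ← h1]
  rw [h2]
  exact I.mul_mem_left _ (hI j)

theorem zer_scale {I : Ideal (Po L k)} (hI : ∀ c ∈ I, ∀ t, homogeneousComponent t c ∈ I)
    {x : Fin L → k} (hx : Zer I x) (s : k) : Zer I fun i => s * x i := by
  intro q hq
  rw [← sum_homogeneousComponent q, map_sum]
  refine Finset.sum_eq_zero fun t _ => ?_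
  rw [eval_scale (homogeneousComponent_isHomogeneous t q), hx _ (hI q hq t), mul_zero]

end

theorem pf_PVR (hELI : T_ELI) : T_PVR := by
  classical
  intro L d d' e k _ _ I _ f g hI hf hg hd' hslf hrel hgi hP
  obtain ⟨i0, hi0⟩ := hgi
  have hj : ∃ j, (X j : Po L k) ∉ I := by
    by_contra hcon
    push Not at hcon
    exact hi0 (mem_of_vars hcon (hg i0) hd')
  obtain ⟨j0, hj0⟩ := hj
  obtain ⟨c, hc, hcS⟩ := hP
  obtain ⟨c1, A, hc1, hA⟩ := hELI L k I f hslf (g i0) hi0
  have hprime : I.IsPrime := inferInstance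
  refine ⟨c * c1 * X j0, fun h => ?_, fun y hy hyc => ?_⟩
  · rcases hprime.mem_or_mem h with h | h
    · rcases hprime.mem_or_mem h with h | h
      · exact hc h
      · exact hc1 h
    · exact hj0 h
  rw [map_mul, map_mul, eval_X] at hyc
  have hyj : y j0 ≠ 0 := right_ne_zero_of_mul hyc
  have hyc1 : eval y c1 ≠ 0 := right_ne_zero_of_mul (left_ne_zero_of_mul hyc)
  have hyc0 : eval y c ≠ 0 := left_ne_zero_of_mul (left_ne_zero_of_mul hyc)
  obtain ⟨S, hS, hS1, hS2⟩ := hcS y hy hyc0
  have hsc : ∀ x ∈ S, ∃ s : k, s ≠ 0 ∧ pmap g (fun i => s * x i) = y := by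
    intro x hx
    obtain ⟨hxz, hxf⟩ := hS1 x hx
    have hfx : ∀ i, eval x (f i) = y i := fun i => congrFun hxf i
    have h1 := hxz _ hA
    rw [map_sub, map_mul, sub_eq_zero] at h1
    have h2 : eval x (aeval f c1) = eval y c1 := by
      have e1 : (fun i => eval x (f i)) = y := funext hfx
      rw [← e1, ← coe_aeval_eq_eval, ← coe_aeval_eq_eval]
      have e2 : ((aeval x : Po L k →ₐ[k] k).comp (aeval f)) =
          aeval (fun i => (aeval x : Po L k →ₐ[k] k) (f i)) := by
        refine MvPolynomial.algHom_ext fun i => ?_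
        rw [AlgHom.comp_apply, aeval_X, aeval_X]
      exact congrArg (fun F : Po L k →ₐ[k] k => F c1) e2
    have hg0 : eval x (g i0) ≠ 0 := by
      intro h0
      rw [h2, h0, zero_mul] at h1
      exact hyc1 h1
    have hr : ∀ j, y i0 * eval x (g j) = y j * eval x (g i0) := by
      intro j
      have h3 := hxz _ (hrel i0 j)
      rw [map_sub, map_mul, map_mul, hfx, hfx, sub_eq_zero] at h3
      exact h3
    have hy0 : y i0 ≠ 0 := by
      intro h0
      have h3 := hr j0
      rw [h0, zero_mul] at h3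
      exact mul_ne_zero hyj hg0 h3.symm
    obtain ⟨s, hs⟩ := IsAlgClosed.exists_pow_nat_eq (y i0 / eval x (g i0)) hd'
    have hs0 : s ≠ 0 := by
      rintro rfl
      rw [zero_pow (by omega)] at hs
      exact div_ne_zero hy0 hg0 hs.symm
    refine ⟨s, hs0, funext fun j => ?_⟩
    show eval (fun i => s * x i) (g j) = y j
    rw [eval_scale (hg j), hs, div_mul_eq_mul_div, hr j, mul_div_assoc, div_self hg0, mul_one]
  choose! s hs0 hsg using hsc
  have hprop : ∀ x ∈ S, ∀ x' ∈ S, ∀ t : k, (∀ i, s x' * x' i = t * (s x * x i)) → x' = x := by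
    intro x hx x' hx' t ht
    refine hS2 x hx x' hx' (t * s x / s x') fun i => ?_
    have h1 := ht i
    have h2 := hs0 x' hx'
    field_simp
    linear_combination h1
  refine ⟨S.image fun x i => s x * x i, ?_, ?_, ?_⟩
  · rw [Finset.card_image_of_injOn, hS]
    intro x hx x' hx' h
    refine (hprop x hx x' hx' 1 fun i => ?_).symm
    rw [one_mul]
    exact (congrFun h i).symm
  · intro w hw
    obtain ⟨x, hx, rfl⟩ := Finset.mem_image.1 hw
    exact ⟨zer_scale hI (hS1 x hx).1 _, hsg x hx⟩
  · intro w hw w' hw' t ht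
    obtain ⟨x, hx, rfl⟩ := Finset.mem_image.1 hw
    obtain ⟨x', hx', rfl⟩ := Finset.mem_image.1 hw'
    rw [hprop x hx x' hx' t ht]

end Pool.Agent.H86.HX
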